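import Pool.Agent.helper64.D2.SpecC

/-!
# Project dc: module BAS
-/

set_option autoImplicit false

open Filter Topology
open scoped commutatorElement

namespace Pool.Agent.helper64.D2

theorem BAS_closed (f : ℝ → ℝ) (hf : Continuous f) (p q : ℝ)
    (h : ∀ x, x ∉ Set.Icc p q → f x = 0) (x : ℝ) (hx : x ∉ Set.Ioo p q) : f x = 0 := by
  have hc : IsClosed {x : ℝ | f x = 0} := isClosed_eq hf continuous_const
  have h1 : Set.Iio p ⊆ {x : ℝ | f x = 0} := fun y hy => h y fun hy' => absurd hy'.1 (not_le.2 hy)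
  have h2 : Set.Ioi q ⊆ {x : ℝ | f x = 0} := fun y hy => h y fun hy' => absurd hy'.2 (not_le.2 hy)
  have h3 : Set.Iic p ⊆ {x : ℝ | f x = 0} := by
    rw [← closure_Iio (α := ℝ)]
    exact closure_minimal h1 hc
  have h4 : Set.Ici q ⊆ {x : ℝ | f x = 0} := by
    rw [← closure_Ioi (α := ℝ)]
    exact closure_minimal h2 hc
  rcases le_or_gt x p with hxp | hxp
  · exact h3 hxp
  · rcases le_or_gt q x with hqx | hqx
    · exact h4 hqx
    · exact absurd ⟨hxp, hqx⟩ hx

theorem BAS : BAS_stmt := by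
  intro X p q a hX hout ha hpq
  have ha0 : 0 ≤ a := (abs_nonneg _).trans (ha 0)
  have hcd1 : ContDiff ℝ 1 (deriv X) := by
    have h2 : ContDiff ℝ (1 + 1) X := by
      norm_num
      exact hX
    exact (contDiff_succ_iff_deriv.1 h2).2.2
  have hdX : Differentiable ℝ X := hX.differentiable (by norm_num)
  have hd1 : Differentiable ℝ (deriv X) := hcd1.differentiable (by norm_num)
  have hopen : IsOpen (Set.Icc p q)ᶜ := isClosed_Icc.isOpen_compl
  have hder : ∀ x, x ∉ Set.Icc p q → deriv X x = 0 := by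
    intro x hx
    have h1 : X =ᶠ[𝓝 x] fun _ => (0 : ℝ) := by
      filter_upwards [hopen.mem_nhds hx] with y hy
      exact hout y hy
    rw [h1.deriv_eq, deriv_const]
  have hder2 : ∀ x, x ∉ Set.Icc p q → d2 X x = 0 := by
    intro x hx
    have h1 : deriv X =ᶠ[𝓝 x] fun _ => (0 : ℝ) := by
      filter_upwards [hopen.mem_nhds hx] with y hy
      exact hder y hy
    unfold d2
    rw [h1.deriv_eq, deriv_const]
  have hz : ∀ x, x ∉ Set.Ioo p q → X x = 0 ∧ deriv X x = 0 := fun x hx =>
    ⟨BAS_closed X hX.continuous p q hout x hx,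
      BAS_closed (deriv X) hcd1.continuous p q hder x hx⟩
  have hp : X p = 0 ∧ deriv X p = 0 := hz p (by simp)
  have hb1 : ∀ x, |deriv X x| ≤ a * (q - p) := by
    intro x
    by_cases hx : x ∈ Set.Icc p q
    · have h1 := convex_univ.norm_image_sub_le_of_norm_deriv_le (f := deriv X) (C := a)
        (fun y _ => hd1 y) (fun y _ => by
          rw [Real.norm_eq_abs]
          exact ha y) (Set.mem_univ p) (Set.mem_univ x)
      rw [hp.2, sub_zero, Real.norm_eq_abs, Real.norm_eq_abs, abs_of_nonneg (sub_nonneg.2 hx.1)]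
        at h1
      exact h1.trans (mul_le_mul_of_nonneg_left (by linarith [hx.2]) ha0)
    · rw [hder x hx, abs_zero]
      exact mul_nonneg ha0 (by linarith)
  refine ⟨hb1, ?_, fun x hx => ⟨hder x hx, hder2 x hx⟩, hz⟩
  intro x
  by_cases hx : x ∈ Set.Icc p q
  · have h1 := convex_univ.norm_image_sub_le_of_norm_deriv_le (f := X) (C := a * (q - p))
      (fun y _ => hdX y) (fun y _ => by
        rw [Real.norm_eq_abs]
        exact hb1 y) (Set.mem_univ p) (Set.mem_univ x)
    rw [hp.1, sub_zero, Real.norm_eq_abs, Real.norm_eq_abs, abs_of_nonneg (sub_nonneg.2 hx.1)]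
      at h1
    have h2 : 0 ≤ a * (q - p) := mul_nonneg ha0 (by linarith)
    calc |X x| ≤ a * (q - p) * (x - p) := h1
      _ ≤ a * (q - p) * (q - p) := mul_le_mul_of_nonneg_left (by linarith [hx.2]) h2
      _ = a * (q - p) ^ 2 := by ring
  · rw [hout x hx, abs_zero]
    exact mul_nonneg ha0 (sq_nonneg _)

end Pool.Agent.helper64.D2
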