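import Pool.Agent.helper64.D2.SpecR

/-!
# Project dc: module RAV
-/

set_option autoImplicit false

open Filter Topology
open scoped commutatorElement

namespace Pool.Agent.helper64.D2

theorem RAV_swap (F : ℝ → ℝ → ℝ) (hF : Continuous (Function.uncurry F)) (a b c d : ℝ) :
    (∫ x in a..b, ∫ y in c..d, F x y) = ∫ y in c..d, ∫ x in a..b, F x y := by
  apply MeasureTheory.intervalIntegral_intervalIntegral_swap
  have h1 : MeasureTheory.IntegrableOn (Function.uncurry F) (Set.uIcc a b ×ˢ Set.uIcc c d)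
      MeasureTheory.volume :=
    hF.continuousOn.integrableOn_compact (isCompact_uIcc.prod isCompact_uIcc)
  exact h1.mono_set (Set.prod_mono Set.uIoc_subset_uIcc Set.uIoc_subset_uIcc)

theorem RAV_cd2 (X : ℝ → ℝ) (hX : ContDiff ℝ 2 X) : Continuous (deriv X) ∧ Continuous (d2 X) := by
  have hcd1 : ContDiff ℝ 1 (deriv X) := by
    have h2 : ContDiff ℝ (1 + 1) X := by
      norm_num
      exact hX
    exact (contDiff_succ_iff_deriv.1 h2).2.2
  exact ⟨hcd1.continuous, hcd1.continuous_deriv le_rfl⟩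

theorem RAV_d2out (X : ℝ → ℝ) (p q : ℝ) (hout : ∀ x, x ∉ Set.Icc p q → X x = 0) :
    ∀ x, x ∉ Set.Icc p q → d2 X x = 0 := by
  have hopen : IsOpen (Set.Icc p q)ᶜ := isClosed_Icc.isOpen_compl
  have hder : ∀ x, x ∉ Set.Icc p q → deriv X x = 0 := by
    intro x hx
    have h1 : X =ᶠ[𝓝 x] fun _ => (0 : ℝ) := by
      filter_upwards [hopen.mem_nhds hx] with y hy
      exact hout y hy
    rw [h1.deriv_eq, deriv_const]
  intro x hx
  have h1 : deriv X =ᶠ[𝓝 x] fun _ => (0 : ℝ) := by
    filter_upwards [hopen.mem_nhds hx] with y hy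
    exact hder y hy
  unfold d2
  rw [h1.deriv_eq, deriv_const]

/-- the final algebra -/
theorem RAV_alg (β μ lam a K M : ℝ) (hβ : 0 < β) (hμ : 0 ≤ μ) (hlam : 0 ≤ lam) (ha : 0 ≤ a) (hK : 0 ≤ K)
    (hM : β * M = β * (2 + 2 * lam) * K + (2 + lam) * K ^ 2 + 3 * μ ^ 2 * a * lam + 6 * μ * lam * K) :
    1 + 2 * M / β ≤ (1 + (lam + 6 * μ * lam / β + 6 * μ ^ 2 * a * lam / β ^ 2)) * (1 + 2 * K / β) ^ 2 := by
  obtain ⟨q, hq⟩ : ∃ q, q = K / β := ⟨_, rfl⟩
  obtain ⟨s, hs⟩ : ∃ s, s = μ * lam / β := ⟨_, rfl⟩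
  obtain ⟨t, ht⟩ : ∃ t, t = μ ^ 2 * a * lam / β ^ 2 := ⟨_, rfl⟩
  have hq0 : 0 ≤ q := by rw [hq]; positivity
  have hs0 : 0 ≤ s := by rw [hs]; positivity
  have ht0 : 0 ≤ t := by rw [ht]; positivity
  have e1 : 2 * M / β = 2 * (2 + 2 * lam) * q + 2 * (2 + lam) * q ^ 2 + 6 * t + 12 * s * q := by
    have h1 : M = (β * (2 + 2 * lam) * K + (2 + lam) * K ^ 2 + 3 * μ ^ 2 * a * lam + 6 * μ * lam * K) / β := by
      rw [← hM]
      field_simp
    rw [h1, hq, hs, ht]
    field_simp
    ring
  have e2 : (1 + (lam + 6 * μ * lam / β + 6 * μ ^ 2 * a * lam / β ^ 2)) * (1 + 2 * K / β) ^ 2 =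
      (1 + (lam + 6 * s + 6 * t)) * (1 + 2 * q) ^ 2 := by
    rw [hq, hs, ht]
    ring
  rw [e1, e2]
  have h1 : 0 ≤ lam * q := mul_nonneg hlam hq0
  have h2 : 0 ≤ lam * q ^ 2 := mul_nonneg hlam (sq_nonneg q)
  have h3 : 0 ≤ s * q := mul_nonneg hs0 hq0
  have h4 : 0 ≤ s * q ^ 2 := mul_nonneg hs0 (sq_nonneg q)
  have h5 : 0 ≤ t * q := mul_nonneg ht0 hq0
  have h6 : 0 ≤ t * q ^ 2 := mul_nonneg ht0 (sq_nonneg q)
  nlinarith

theorem RAV (hRC1 : RC1_stmt) (hRI2 : RI2_stmt) (hRI3 : RI3_stmt) (hRI4 : RI4_stmt) : RAV_stmt := by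
  intro X G p q a lam hSH hG β μ hβ hβ4 hμ
  have hSH' := hSH
  obtain ⟨hX, hout, hd1, hd2, hp4, hpq, hq4, hlam0, hlam8, ha0⟩ := hSH'
  obtain ⟨hsh, hcosh⟩ := hRC1
  obtain ⟨hcX1, hcX2⟩ := RAV_cd2 X hX
  have hcG : Continuous G := hG.2.2
  have hcX : Continuous X := hX.continuous
  have hcH : Continuous (Hh X) := by
    unfold Hh
    exact continuous_id.add (hcX.div_const 2)
  have hd2out : ∀ x, x ∉ Set.Icc (1 / 4 : ℝ) (3 / 4) → d2 X x = 0 := by
    intro x hx
    refine RAV_d2out X p q hout x fun hx' => hx ⟨hp4.trans hx'.1, hx'.2.trans hq4⟩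
  -- the basic functions
  obtain ⟨x, hxdef⟩ : ∃ x : ℝ → ℝ, x = fun u => μ * d2 X u := ⟨_, rfl⟩
  obtain ⟨y, hydef⟩ : ∃ y : ℝ → ℝ → ℝ, y = fun θ u => μ * d2 X (G (Hh X u - θ)) := ⟨_, rfl⟩
  have hcx : Continuous x := by
    rw [hxdef]
    exact continuous_const.mul hcX2
  have hcy : Continuous (Function.uncurry y) := by
    rw [hydef]
    exact continuous_const.mul (hcX2.comp (hcG.comp ((hcH.comp continuous_snd).sub continuous_fst)))
  have hcx2 : Continuous (fun z : ℝ × ℝ => x z.2) := hcx.comp continuous_snd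
  have hcy2 : Continuous (fun z : ℝ × ℝ => y z.1 z.2) := hcy
  have hcosh0 : ∀ t : ℝ, 0 ≤ Real.cosh t - 1 := fun t => sub_nonneg.2 (Real.one_le_cosh t)
  have hK0 : 0 ≤ KK X μ := by
    unfold KK
    exact intervalIntegral.integral_nonneg (by norm_num) fun u _ => hcosh0 _
  refine ⟨hK0, ?_⟩
  have hKx : KK X μ = ∫ u in (0 : ℝ)..1, (Real.cosh (x u) - 1) := by
    unfold KK
    rw [hxdef]
  obtain ⟨K, hKdef⟩ : ∃ K, K = KK X μ := ⟨_, rfl⟩
  rw [← hKdef] at hK0 hKx ⊢
  have c1 : Continuous (fun z : ℝ × ℝ => Real.cosh (x z.2) - 1) :=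
    (Real.continuous_cosh.comp hcx2).sub continuous_const
  have c2 : Continuous (fun z : ℝ × ℝ => Real.cosh (y z.1 z.2) - 1) :=
    (Real.continuous_cosh.comp hcy2).sub continuous_const
  have c3 : Continuous (fun z : ℝ × ℝ => 2 * ((Real.cosh (x z.2) - 1) * (Real.cosh (y z.1 z.2) - 1))) :=
    continuous_const.mul (c1.mul c2)
  have c4 : Continuous (fun z : ℝ × ℝ => x z.2 * y z.1 z.2) := hcx2.mul hcy2
  have c5 : Continuous (fun z : ℝ × ℝ => x z.2 * (Real.sinh (y z.1 z.2) - y z.1 z.2)) :=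
    hcx2.mul ((Real.continuous_sinh.comp hcy2).sub hcy2)
  have c6 : Continuous (fun z : ℝ × ℝ => y z.1 z.2 * (Real.sinh (x z.2) - x z.2)) :=
    hcy2.mul ((Real.continuous_sinh.comp hcx2).sub hcx2)
  -- the five pieces
  have hRI2y : ∀ u, (∫ θ in (0 : ℝ)..β, (Real.cosh (y θ u) - 1)) ≤ (1 + lam / 2) * K ∧
      |∫ θ in (0 : ℝ)..β, y θ u| ≤ 3 * μ * lam := by
    intro u
    obtain ⟨h1, h2, -⟩ := hRI2 X G p q a lam hSH hG u β μ hβ.le hμ
    rw [hKdef, hydef]
    exact ⟨h1, h2⟩
  have hA : (∫ θ in (0 : ℝ)..β, ∫ u in (0 : ℝ)..1, (Real.cosh (x u) - 1)) = β * K := by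
    rw [intervalIntegral.integral_const, hKx]
    simp
  have hB : (∫ θ in (0 : ℝ)..β, ∫ u in (0 : ℝ)..1, (Real.cosh (y θ u) - 1)) ≤ β * ((1 + 2 * lam) * K) := by
    have h1 : ∀ θ ∈ Set.Icc (0 : ℝ) β, (∫ u in (0 : ℝ)..1, (Real.cosh (y θ u) - 1)) ≤ (1 + 2 * lam) * K := by
      intro θ hθ
      have h2 := hRI3 X G p q a lam hSH hG (fun _ w => Real.cosh (μ * d2 X w) - 1) θ
        ((Real.continuous_cosh.comp (continuous_const.mul (hcX2.comp continuous_snd))).sub continuous_const)
        (fun u w hw => by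
          rw [hd2out w hw]
          simp) hθ.1 (hθ.2.trans hβ4)
      have h3 : (∫ u in (0 : ℝ)..1, (Real.cosh (y θ u) - 1)) =
          ∫ w in (0 : ℝ)..1, (Real.cosh (μ * d2 X w) - 1) *
            ((1 + deriv X w / 2) / (1 + deriv X (G (Hh X w + θ)) / 2)) := by
        rw [← h2, hydef]
      rw [h3, hKx, ← intervalIntegral.integral_const_mul]
      have hden : ∀ w, 15 / 16 ≤ 1 + deriv X w / 2 ∧ 1 - lam / 2 ≤ 1 + deriv X w / 2 ∧
          1 + deriv X w / 2 ≤ 1 + lam / 2 := by
        intro w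
        have h4 := abs_le.1 (hd1 w)
        refine ⟨?_, ?_, ?_⟩ <;> linarith [h4.1, h4.2]
      apply intervalIntegral.integral_mono_on (by norm_num)
      · apply Continuous.intervalIntegrable
        refine ((Real.continuous_cosh.comp (continuous_const.mul hcX2)).sub continuous_const).mul ?_
        refine (continuous_const.add (hcX1.div_const 2)).div
          (continuous_const.add ((hcX1.comp (hcG.comp (hcH.add continuous_const))).div_const 2)) ?_
        intro w
        have h4 := (hden (G (Hh X w + θ))).1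
        positivity
      · apply Continuous.intervalIntegrable
        exact continuous_const.mul ((Real.continuous_cosh.comp hcx).sub continuous_const)
      · intro w _
        have h4 : (1 + deriv X w / 2) / (1 + deriv X (G (Hh X w + θ)) / 2) ≤ 1 + 2 * lam := by
          have h5 := hden (G (Hh X w + θ))
          rw [div_le_iff₀ (by linarith [h5.1])]
          have h6 := (hden w).2.2
          have h7 : (1 + 2 * lam) * (1 - lam / 2) ≤ (1 + 2 * lam) * (1 + deriv X (G (Hh X w + θ)) / 2) :=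
            mul_le_mul_of_nonneg_left h5.2.1 (by linarith)
          nlinarith
        have h5 : x w = μ * d2 X w := by rw [hxdef]
        rw [h5, mul_comm (1 + 2 * lam)]
        exact mul_le_mul_of_nonneg_left h4 (hcosh0 _)
    calc (∫ θ in (0 : ℝ)..β, ∫ u in (0 : ℝ)..1, (Real.cosh (y θ u) - 1))
        ≤ ∫ θ in (0 : ℝ)..β, (1 + 2 * lam) * K := by
          apply intervalIntegral.integral_mono_on hβ.le
          · apply Continuous.intervalIntegrable
            apply intervalIntegral.continuous_parametric_intervalIntegral_of_continuous'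
            exact (Real.continuous_cosh.comp hcy2).sub continuous_const
          · exact intervalIntegrable_const
          · exact h1
      _ = β * ((1 + 2 * lam) * K) := by
          rw [intervalIntegral.integral_const]
          simp
  have hC : (∫ θ in (0 : ℝ)..β, ∫ u in (0 : ℝ)..1, 2 * ((Real.cosh (x u) - 1) * (Real.cosh (y θ u) - 1))) ≤
      (2 + lam) * K ^ 2 := by
    rw [RAV_swap (fun θ u => 2 * ((Real.cosh (x u) - 1) * (Real.cosh (y θ u) - 1))) c3 0 β 0 1]
    have h1 : ∀ u, (∫ θ in (0 : ℝ)..β, 2 * ((Real.cosh (x u) - 1) * (Real.cosh (y θ u) - 1))) =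
        2 * (Real.cosh (x u) - 1) * ∫ θ in (0 : ℝ)..β, (Real.cosh (y θ u) - 1) := by
      intro u
      rw [← intervalIntegral.integral_const_mul]
      congr 1
      funext θ
      ring
    simp only [h1]
    have h2 : (2 + lam) * K ^ 2 = ∫ u in (0 : ℝ)..1, (2 + lam) * K * (Real.cosh (x u) - 1) := by
      rw [intervalIntegral.integral_const_mul, ← hKx]
      ring
    rw [h2]
    apply intervalIntegral.integral_mono_on (by norm_num)
    · apply Continuous.intervalIntegrable
      refine (continuous_const.mul ((Real.continuous_cosh.comp hcx).sub continuous_const)).mul ?_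
      apply intervalIntegral.continuous_parametric_intervalIntegral_of_continuous'
      exact (Real.continuous_cosh.comp (hcy2.comp (continuous_snd.prodMk continuous_fst))).sub continuous_const
    · apply Continuous.intervalIntegrable
      exact continuous_const.mul ((Real.continuous_cosh.comp hcx).sub continuous_const)
    · intro u _
      have h3 := (hRI2y u).1
      have h4 := hcosh0 (x u)
      have h5 := mul_le_mul_of_nonneg_left h3 (mul_nonneg (by norm_num : (0:ℝ) ≤ 2) h4)
      nlinarith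
  have hD : (∫ θ in (0 : ℝ)..β, ∫ u in (0 : ℝ)..1, x u * y θ u) ≤ 3 * μ ^ 2 * a * lam := by
    rw [RAV_swap (fun θ u => x u * y θ u) c4 0 β 0 1]
    have h1 : ∀ u, (∫ θ in (0 : ℝ)..β, x u * y θ u) = x u * ∫ θ in (0 : ℝ)..β, y θ u := fun u =>
      intervalIntegral.integral_const_mul _ _
    simp only [h1]
    have h2 : 3 * μ ^ 2 * a * lam = ∫ u in (0 : ℝ)..1, μ * a * (3 * μ * lam) := by
      rw [intervalIntegral.integral_const]
      simp
      ring
    rw [h2]
    apply intervalIntegral.integral_mono_on (by norm_num)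
    · apply Continuous.intervalIntegrable
      refine hcx.mul ?_
      apply intervalIntegral.continuous_parametric_intervalIntegral_of_continuous'
      exact hcy2.comp (continuous_snd.prodMk continuous_fst)
    · exact intervalIntegrable_const
    · intro u _
      have h3 := (hRI2y u).2
      have h4 : |x u| ≤ μ * a := by
        rw [hxdef]
        simp only
        rw [abs_mul, abs_of_nonneg hμ]
        exact mul_le_mul_of_nonneg_left (hd2 u) hμ
      calc x u * ∫ θ in (0 : ℝ)..β, y θ u ≤ |x u * ∫ θ in (0 : ℝ)..β, y θ u| := le_abs_self _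
        _ = |x u| * |∫ θ in (0 : ℝ)..β, y θ u| := abs_mul _ _
        _ ≤ μ * a * (3 * μ * lam) := mul_le_mul h4 h3 (abs_nonneg _) (mul_nonneg hμ ha0)
  have hE : (∫ θ in (0 : ℝ)..β, ∫ u in (0 : ℝ)..1, x u * (Real.sinh (y θ u) - y θ u)) ≤ 3 * μ * lam * K := by
    have h1 := hRI4 X G p q a lam hSH hG β μ hβ.le hβ4 hμ
    rw [← hKdef] at h1
    have h2 := (abs_le.1 h1).2
    rw [hxdef, hydef]
    exact h2
  have hF : (∫ θ in (0 : ℝ)..β, ∫ u in (0 : ℝ)..1, y θ u * (Real.sinh (x u) - x u)) ≤ 3 * μ * lam * K := by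
    rw [RAV_swap (fun θ u => y θ u * (Real.sinh (x u) - x u)) c6 0 β 0 1]
    have h1 : ∀ u, (∫ θ in (0 : ℝ)..β, y θ u * (Real.sinh (x u) - x u)) =
        (∫ θ in (0 : ℝ)..β, y θ u) * (Real.sinh (x u) - x u) := fun u =>
      intervalIntegral.integral_mul_const _ _
    simp only [h1]
    have h2 : 3 * μ * lam * K = ∫ u in (0 : ℝ)..1, 3 * μ * lam * (Real.cosh (x u) - 1) := by
      rw [intervalIntegral.integral_const_mul, ← hKx]
    rw [h2]
    apply intervalIntegral.integral_mono_on (by norm_num)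
    · apply Continuous.intervalIntegrable
      refine Continuous.mul ?_ ((Real.continuous_sinh.comp hcx).sub hcx)
      apply intervalIntegral.continuous_parametric_intervalIntegral_of_continuous'
      exact hcy2.comp (continuous_snd.prodMk continuous_fst)
    · apply Continuous.intervalIntegrable
      exact continuous_const.mul ((Real.continuous_cosh.comp hcx).sub continuous_const)
    · intro u _
      have h3 := (hRI2y u).2
      have h4 := hsh (x u)
      calc (∫ θ in (0 : ℝ)..β, y θ u) * (Real.sinh (x u) - x u)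
          ≤ |(∫ θ in (0 : ℝ)..β, y θ u) * (Real.sinh (x u) - x u)| := le_abs_self _
        _ = |∫ θ in (0 : ℝ)..β, y θ u| * |Real.sinh (x u) - x u| := abs_mul _ _
        _ ≤ 3 * μ * lam * (Real.cosh (x u) - 1) := mul_le_mul h3 h4 (abs_nonneg _) (by positivity)
  -- the pointwise inequality, integrated
  have hPHc : Continuous (fun θ => PH X G μ θ) := by
    unfold PH
    apply intervalIntegral.continuous_parametric_intervalIntegral_of_continuous'
    exact (Real.continuous_cosh.comp (continuous_const.mul ((hcX2.comp continuous_snd).add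
      (hcX2.comp (hcG.comp ((hcH.comp continuous_snd).sub continuous_fst)))))).sub continuous_const
  have hsl : ∀ (f : ℝ × ℝ → ℝ), Continuous f → ∀ θ, Continuous (fun u => f (θ, u)) := fun f hf θ =>
    hf.comp (continuous_const.prodMk continuous_id)
  have hpt : ∀ θ, PH X G μ θ ≤ (∫ u in (0 : ℝ)..1, (Real.cosh (x u) - 1)) +
      (∫ u in (0 : ℝ)..1, (Real.cosh (y θ u) - 1)) +
      (∫ u in (0 : ℝ)..1, 2 * ((Real.cosh (x u) - 1) * (Real.cosh (y θ u) - 1))) +
      (∫ u in (0 : ℝ)..1, x u * y θ u) + (∫ u in (0 : ℝ)..1, x u * (Real.sinh (y θ u) - y θ u)) +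
      (∫ u in (0 : ℝ)..1, y θ u * (Real.sinh (x u) - x u)) := by
    intro θ
    have i1 : IntervalIntegrable (fun u => Real.cosh (x u) - 1) MeasureTheory.volume 0 1 :=
      (hsl _ c1 θ).intervalIntegrable _ _
    have i2 : IntervalIntegrable (fun u => Real.cosh (y θ u) - 1) MeasureTheory.volume 0 1 :=
      (hsl _ c2 θ).intervalIntegrable _ _
    have i3 : IntervalIntegrable (fun u => 2 * ((Real.cosh (x u) - 1) * (Real.cosh (y θ u) - 1)))
        MeasureTheory.volume 0 1 := (hsl _ c3 θ).intervalIntegrable _ _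
    have i4 : IntervalIntegrable (fun u => x u * y θ u) MeasureTheory.volume 0 1 :=
      (hsl _ c4 θ).intervalIntegrable _ _
    have i5 : IntervalIntegrable (fun u => x u * (Real.sinh (y θ u) - y θ u)) MeasureTheory.volume 0 1 :=
      (hsl _ c5 θ).intervalIntegrable _ _
    have i6 : IntervalIntegrable (fun u => y θ u * (Real.sinh (x u) - x u)) MeasureTheory.volume 0 1 :=
      (hsl _ c6 θ).intervalIntegrable _ _
    rw [← intervalIntegral.integral_add i1 i2, ← intervalIntegral.integral_add (i1.add i2) i3,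
      ← intervalIntegral.integral_add ((i1.add i2).add i3) i4,
      ← intervalIntegral.integral_add (((i1.add i2).add i3).add i4) i5,
      ← intervalIntegral.integral_add ((((i1.add i2).add i3).add i4).add i5) i6]
    unfold PH
    apply intervalIntegral.integral_mono_on (by norm_num)
    · apply Continuous.intervalIntegrable
      exact (Real.continuous_cosh.comp (continuous_const.mul (hcX2.add
        (hcX2.comp (hcG.comp (hcH.sub continuous_const)))))).sub continuous_const
    · exact (((((i1.add i2).add i3).add i4).add i5).add i6)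
    · intro u _
      have h1 := hcosh (x u) (y θ u)
      have h2 : μ * (d2 X u + d2 X (G (Hh X u - θ))) = x u + y θ u := by
        rw [hxdef, hydef]
        ring
      rw [h2]
      exact h1
  have j1 : IntervalIntegrable (fun _ : ℝ => ∫ u in (0 : ℝ)..1, (Real.cosh (x u) - 1))
      MeasureTheory.volume 0 β := intervalIntegrable_const
  have hpar : ∀ f : ℝ → ℝ → ℝ, Continuous (Function.uncurry f) →
      IntervalIntegrable (fun θ : ℝ => ∫ u in (0 : ℝ)..1, f θ u) MeasureTheory.volume 0 β := by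
    intro f hf
    apply Continuous.intervalIntegrable
    exact intervalIntegral.continuous_parametric_intervalIntegral_of_continuous' hf 0 1
  have j2 := hpar (fun θ u => Real.cosh (y θ u) - 1) c2
  have j3 := hpar (fun θ u => 2 * ((Real.cosh (x u) - 1) * (Real.cosh (y θ u) - 1))) c3
  have j4 := hpar (fun θ u => x u * y θ u) c4
  have j5 := hpar (fun θ u => x u * (Real.sinh (y θ u) - y θ u)) c5
  have j6 := hpar (fun θ u => y θ u * (Real.sinh (x u) - x u)) c6
  obtain ⟨M, hM⟩ : ∃ M, β * M = β * (2 + 2 * lam) * K + (2 + lam) * K ^ 2 + 3 * μ ^ 2 * a * lam +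
      6 * μ * lam * K :=
    ⟨(β * (2 + 2 * lam) * K + (2 + lam) * K ^ 2 + 3 * μ ^ 2 * a * lam + 6 * μ * lam * K) / β, by
      field_simp⟩
  have htot : (∫ θ in (0 : ℝ)..β, PH X G μ θ) ≤ β * M := by
    have h1 : (∫ θ in (0 : ℝ)..β, PH X G μ θ) ≤
        ∫ θ in (0 : ℝ)..β, ((∫ u in (0 : ℝ)..1, (Real.cosh (x u) - 1)) +
          (∫ u in (0 : ℝ)..1, (Real.cosh (y θ u) - 1)) +
          (∫ u in (0 : ℝ)..1, 2 * ((Real.cosh (x u) - 1) * (Real.cosh (y θ u) - 1))) +
          (∫ u in (0 : ℝ)..1, x u * y θ u) + (∫ u in (0 : ℝ)..1, x u * (Real.sinh (y θ u) - y θ u)) +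
          (∫ u in (0 : ℝ)..1, y θ u * (Real.sinh (x u) - x u))) := by
      apply intervalIntegral.integral_mono_on hβ.le (hPHc.intervalIntegrable _ _)
      · exact (((((j1.add j2).add j3).add j4).add j5).add j6)
      · intro θ _
        exact hpt θ
    rw [intervalIntegral.integral_add ((((j1.add j2).add j3).add j4).add j5) j6,
      intervalIntegral.integral_add (((j1.add j2).add j3).add j4) j5,
      intervalIntegral.integral_add ((j1.add j2).add j3) j4,
      intervalIntegral.integral_add (j1.add j2) j3, intervalIntegral.integral_add j1 j2] at h1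
    rw [hM]
    have h2 : β * (2 + 2 * lam) * K = β * K + β * ((1 + 2 * lam) * K) := by ring
    linarith
  -- existence of θ
  have hex : ∃ θ : ℝ, 0 < θ ∧ θ ≤ β ∧ PH X G μ θ ≤ M := by
    by_contra hcon
    push Not at hcon
    have h1 : 0 < ∫ θ in (0 : ℝ)..β, (PH X G μ θ - M) := by
      apply intervalIntegral.intervalIntegral_pos_of_pos_on
      · exact (hPHc.sub continuous_const).intervalIntegrable _ _
      · intro θ hθ
        have h2 := hcon θ hθ.1 hθ.2.le
        linarith
      · exact hβ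
    rw [intervalIntegral.integral_sub (hPHc.intervalIntegrable _ _) intervalIntegrable_const,
      intervalIntegral.integral_const] at h1
    simp only [sub_zero, smul_eq_mul] at h1
    linarith
  obtain ⟨θ, hθ0, hθβ, hθM⟩ := hex
  refine ⟨θ, hθ0, hθβ, ?_⟩
  have h1 := RAV_alg β μ lam a K M hβ hμ hlam0 ha0 hK0 hM
  refine le_trans ?_ h1
  have h2 : 2 * PH X G μ θ / β ≤ 2 * M / β := by
    apply div_le_div_of_nonneg_right _ hβ.le
    linarith
  linarith

end Pool.Agent.helper64.D2
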